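import Mathlib

set_option autoImplicit false

namespace Pool.Agent.H.MP_d4d41d_nt

open PowerSeries PowerSeries.WithPiTopology

def s (a n : ℕ) : ℕ := a * (n + 1).choose 2 + n.choose 2

theorem ch (n : ℕ) : (n + 1).choose 2 = n.choose 2 + n := by
  rw [Nat.choose_succ_succ' n 1, Nat.choose_one_right, add_comm]

theorem s_succ (a n : ℕ) : s a (n + 1) = s a n + (a * (n + 1) + n) := by
  unfold s; rw [ch (n + 1), ch n]; ring

theorem s_step {a : ℕ} (ha : 1 ≤ a) (n : ℕ) : s a n + (2 * n + 1) ≤ s a (n + 1) := by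
  rw [s_succ]; nlinarith

theorem s_mono {a : ℕ} (ha : 1 ≤ a) : StrictMono (s a) :=
  strictMono_nat_of_lt_succ fun n => by have := s_step ha n; omega

open Classical in
noncomputable def A (a : ℕ) (ε : ℕ → ℤ) (k : ℕ) : ℤ :=
  if h : ∃ n, s a n ≤ k ∧ k < s a n + (2 * n + 1) then ε h.choose else 0

theorem uniq {a : ℕ} (ha : 1 ≤ a) {n m k : ℕ} (h1 : s a n ≤ k) (h2 : k < s a (n + 1))
    (h3 : s a m ≤ k) (h4 : k < s a m + (2 * m + 1)) : m = n := by
  have := s_step ha m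
  have e1 : m < n + 1 := (s_mono ha).lt_iff_lt.1 (by omega)
  have e2 : n < m + 1 := (s_mono ha).lt_iff_lt.1 (by omega)
  omega

theorem A_eq {a : ℕ} (ha : 1 ≤ a) (ε : ℕ → ℤ) (n k : ℕ) (h1 : s a n ≤ k) (h2 : k < s a (n + 1)) :
    A a ε k = if k < s a n + (2 * n + 1) then ε n else 0 := by
  unfold A
  split_ifs with h h' h'
  · rw [uniq ha h1 h2 h.choose_spec.1 h.choose_spec.2]
  · have := h.choose_spec
    rw [uniq ha h1 h2 this.1 this.2] at this
    exact absurd this.2 h'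
  · exact absurd ⟨n, h1, h'⟩ h
  · rfl

theorem A_abs (a : ℕ) (ε : ℕ → ℤ) (h : ∀ n, |ε n| ≤ 1) (k : ℕ) : |A a ε k| ≤ 1 := by
  unfold A; split_ifs
  · exact h _
  · simp

theorem ex_n {a : ℕ} (ha : 1 ≤ a) (k : ℕ) : ∃ n, s a n ≤ k ∧ k < s a (n + 1) := by
  induction k with
  | zero => exact ⟨0, by simp [s], by have := s_step ha 0; omega⟩
  | succ k ih =>
    obtain ⟨n, h1, h2⟩ := ih
    by_cases h : k + 1 < s a (n + 1)
    · exact ⟨n, by omega, h⟩
    · exact ⟨n + 1, by omega, by have := s_step ha (n + 1); omega⟩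

theorem hasSum_blocks {a : ℕ} (ha : 1 ≤ a) (ε : ℕ → ℤ) :
    HasSum (fun n => C (ε n) * (X ^ s a n - X ^ (s a n + (2 * n + 1))))
      ((1 - X) * PowerSeries.mk (A a ε)) := by
  have h : HasSum (fun n => C (ε n) * (X ^ s a n * ∑ i ∈ Finset.range (2 * n + 1), X ^ i))
      (PowerSeries.mk (A a ε)) := by
    refine (hasSum_iff_hasSum_coeff ℤ).2 fun k => ?_
    obtain ⟨n, h1, h2⟩ := ex_n ha k
    have e : ∀ m, coeff k (C (ε m) * (X ^ s a m * ∑ i ∈ Finset.range (2 * m + 1), X ^ i) : ℤ⟦X⟧) =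
        if s a m ≤ k ∧ k < s a m + (2 * m + 1) then ε m else 0 := by
      intro m
      rw [coeff_C_mul, coeff_X_pow_mul', map_sum]
      simp only [coeff_X_pow, Finset.sum_ite_eq, Finset.mem_range]
      by_cases c1 : s a m ≤ k
      · by_cases c2 : k < s a m + (2 * m + 1)
        · rw [if_pos c1, if_pos (by omega), if_pos ⟨c1, c2⟩, mul_one]
        · rw [if_pos c1, if_neg (by omega), if_neg (fun h => c2 h.2), mul_zero]
      · rw [if_neg c1, if_neg (fun h => c1 h.1), mul_zero]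
    simp only [e, coeff_mk]
    have e2 : A a ε k = if s a n ≤ k ∧ k < s a n + (2 * n + 1) then ε n else 0 := by
      rw [A_eq ha ε n k h1 h2]; simp [h1]
    rw [e2]
    exact hasSum_single n fun m hm => if_neg fun h => hm (uniq ha h1 h2 h.1 h.2)
  have e : (fun n => C (ε n) * (X ^ s a n - X ^ (s a n + (2 * n + 1)))) = fun n =>
      (1 - X) * (C (ε n) * (X ^ s a n * ∑ i ∈ Finset.range (2 * n + 1), X ^ i) : ℤ⟦X⟧) := by
    funext n
    have g := mul_neg_geom_sum (X : ℤ⟦X⟧) (2 * n + 1)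
    rw [pow_add (X : ℤ⟦X⟧) (s a n)]
    linear_combination (-C (ε n) * X ^ s a n) * g
  rw [e]
  exact h.mul_left (1 - X)

theorem summ (f : ℕ → ℕ) (hf : ∀ n, n ≤ f n) (ε : ℕ → ℤ) :
    Summable fun n => (C (ε n) * X ^ f n : ℤ⟦X⟧) := by
  refine (summable_iff_summable_coeff _).2 fun k => summable_of_ne_finset_zero
    (s := Finset.range (k + 1)) fun n hn => ?_
  have := hf n
  rw [Finset.mem_range] at hn
  rw [coeff_C_mul, coeff_X_pow, if_neg (by omega), mul_zero]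

def eps (n : ℕ) : ℤ := (-1) ^ (n + 1).choose 2

theorem psi_eq {a : ℕ} (ha : 1 ≤ a) :
    (∑' n : ℕ, (-X ^ a : ℤ⟦X⟧) ^ (n + 1).choose 2 * X ^ n.choose 2) -
      (∑' n : ℕ, (-X ^ a : ℤ⟦X⟧) ^ (n + 1).choose 2 * X ^ (n + 2).choose 2) =
      (1 - X) * PowerSeries.mk (A a eps) := by
  have e1 : ∀ n : ℕ, (-X ^ a : ℤ⟦X⟧) ^ (n + 1).choose 2 * X ^ n.choose 2 =
      C (eps n) * X ^ s a n := by
    intro n; rw [neg_pow, eps, s]; simp only [map_pow, map_neg, map_one]; ring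
  have e2 : ∀ n : ℕ, (-X ^ a : ℤ⟦X⟧) ^ (n + 1).choose 2 * X ^ (n + 2).choose 2 =
      C (eps n) * X ^ (s a n + (2 * n + 1)) := by
    intro n; rw [neg_pow, eps, s, ch (n + 1), ch n]; simp only [map_pow, map_neg, map_one]; ring
  simp only [e1, e2]
  rw [← Summable.tsum_sub (summ _ (fun n => (s_mono ha).le_apply) _)
    (summ _ (fun n => le_add_right (s_mono ha).le_apply) _), ← (hasSum_blocks ha eps).tsum_eq]
  simp only [mul_sub]

theorem euler_eq : ∏' n, (1 - X ^ (n + 1) : ℤ⟦X⟧) =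
    (1 - X) * PowerSeries.mk (A 2 fun n => (-1) ^ n) := by
  rw [tprod_one_sub_X_pow, pentagonalSeries_eq_tsum_pow_pentagonal_sub,
    ← (hasSum_blocks (by norm_num) _).tsum_eq]
  refine tsum_congr fun n => ?_
  have h2 : ∀ n : ℕ, 2 * n.choose 2 + n = n * n := by
    intro n; induction n with
    | zero => rfl
    | succ n ih => rw [ch]; nlinarith
  have e1 : pentagonal (-n) = s 2 n := by
    have := two_mul_natCast_pentagonal_neg n
    have h3 := h2 n
    unfold s; rw [ch]; zify at h3 ⊢; nlinarith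
  have e2 : pentagonal (n + 1) = s 2 n + (2 * n + 1) := by
    have := two_mul_natCast_pentagonal (n + 1)
    have h3 := h2 n
    unfold s; rw [ch]; zify at h3 ⊢; nlinarith
  rw [e1, e2]; simp

end Pool.Agent.H.MP_d4d41d_nt
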